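import Pool.Agent.L7h3.CE.All
import Pool.Agent.Helper391.Lg.P_conn4_inf

set_option autoImplicit false

/-!
# Hamilton circles in line graphs of 4-edge-connected graphs with countably many ends

Let `G` be an infinite locally finite 4-edge-connected graph with countably many ends (for instance,
with finitely many). Then the line graph `L(G)` has a Hamilton circle.

The Hamilton circle is given by its edges: a 2-regular spanning subgraph `C` of `L(G)` which meets
every finite cut of `L(G)` and such that every end of `L(G)` has arbitrarily small connected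
neighbourhoods with a finite boundary which exactly two edges of `C` leave.
-/

namespace Pool.Agent.Results.MP_7f38c2_co.CountablyManyEnds

/-- `r` is a ray (one-way infinite path) of `G` -/
def IsRay {V : Type*} (G : SimpleGraph V) (r : ℕ → V) : Prop :=
  Function.Injective r ∧ ∀ n, G.Adj (r n) (r (n + 1))

/-- The rays `r` and `r'` are equivalent (they belong to the same end): no finite vertex set `S`
separates them, i.e. for each finite `S` they have tails avoiding `S` which are joined by a path
avoiding `S`. -/
def RayEquiv {V : Type*} (G : SimpleGraph V) (r r' : ℕ → V) : Prop :=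
  ∀ S : Finset V, ∃ m n : ℕ, (∀ i, m ≤ i → r i ∉ S) ∧ (∀ i, n ≤ i → r' i ∉ S) ∧
    ∃ p : G.Walk (r m) (r' n), ∀ v ∈ p.support, v ∉ S

/-- `G` has countably many ends: some sequence of rays contains a ray of every end -/
def CountablyManyEnds {V : Type*} (G : SimpleGraph V) : Prop :=
  ∃ r : ℕ → ℕ → V, (∀ n, IsRay G (r n)) ∧ ∀ s, IsRay G s → ∃ n, RayEquiv G s (r n)

/-- the edges of `H` with one end in `Z` and one end outside `Z` -/
def boundary {W : Type*} (H : SimpleGraph W) (Z : Set W) : Set (Sym2 W) :=
  {e | e ∈ H.edgeSet ∧ (∃ v ∈ e, v ∈ Z) ∧ ∃ v ∈ e, v ∉ Z}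

/-- `C` is the graph of a Hamilton circle of the locally finite graph `H`: `C` is a 2-regular
spanning subgraph of `H`; it has an edge in every finite cut of `H`; and for every end of `H`, given
by a ray `r`, and every finite vertex set `S` there is a connected set `Z` of vertices, disjoint from
`S`, with finite boundary in `H`, which contains a tail of `r` and which exactly two edges of `C`
leave. -/
structure IsHamiltonCircle {W : Type*} (H C : SimpleGraph W) : Prop where
  le : C ≤ H
  degree : ∀ v, (C.neighborSet v).ncard = 2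
  cuts : ∀ X : Set W, X.Nonempty → Xᶜ.Nonempty → (boundary H X).Finite →
    (boundary C X).Nonempty
  ends : ∀ r : ℕ → W, IsRay H r → ∀ S : Set W, S.Finite → ∃ Z : Set W, Disjoint Z S ∧
    (H.induce Z).Preconnected ∧ (boundary H Z).Finite ∧ (∃ m, ∀ n, m ≤ n → r n ∈ Z) ∧
    (boundary C Z).ncard = 2

/-- Every infinite locally finite 4-edge-connected graph with countably many ends has a line graph
with a Hamilton circle. -/
theorem result {V : Type*} [Infinite V] (G : SimpleGraph V) (hlf : ∀ v, (G.neighborSet v).Finite)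
    (h4 : G.IsEdgeConnected 4) (hend : CountablyManyEnds G) :
    ∃ C : SimpleGraph G.edgeSet, IsHamiltonCircle G.lineGraph C := by
  have hconn : ∀ u v, G.Reachable u v := fun u v => h4.preconnected (by norm_num) u v
  have hF : Pool.Agent.L7h3.CE.Four G :=
    ⟨hlf, hconn, fun P hP hP' hb => Pool.Agent.Helper391.Lg.conn4_inf G h4 P hP hP' hb⟩
  haveI : Nonempty V := inferInstance
  obtain ⟨r, hr, hall⟩ := hend
  obtain ⟨C, hC, hdeg, hcut, hends⟩ := Pool.Agent.L7h3.CE.ham V G hF
    (Pool.Agent.L7h3.CE.main1 V G hF ⟨r, hr, hall⟩)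
  refine ⟨C, hC, hdeg, ?_, ?_⟩
  · intro X hX hX' hb
    obtain ⟨x, hx, y, hy, hxy⟩ := hcut X hX hX' hb
    exact ⟨s(x, y), hxy, ⟨x, by simp, hx⟩, y, by simp, hy⟩
  · intro s hs S hS
    obtain ⟨Z, h1, h2, h3, h5, h6⟩ := hends s hs S hS
    refine ⟨Z, h1, ?_, h2, h5, h6⟩
    rintro ⟨a, ha⟩ ⟨b, hb⟩
    have key : ∀ {c : G.edgeSet} (p : (SimpleGraph.fromEdgeSet
        (Pool.Agent.Helper391.Lg.ins G.lineGraph Z)).Walk a c) (hc : c ∈ Z),
        (G.lineGraph.induce Z).Reachable ⟨a, ha⟩ ⟨c, hc⟩ := by
      intro c p
      induction p using SimpleGraph.Walk.concatRec with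
      | Hnil => intro hc; exact SimpleGraph.Reachable.refl _
      | Hconcat p hadj ih =>
        intro hc
        rw [SimpleGraph.fromEdgeSet_adj] at hadj
        obtain ⟨⟨hadj1, hadj2⟩, hne⟩ := hadj
        have hb' := hadj2 _ (Sym2.mem_mk_left _ _)
        refine (ih ha hb').trans (SimpleGraph.Adj.reachable ?_)
        exact hadj1
    obtain ⟨p⟩ := h3 a ha b hb
    exact key p hb

end Pool.Agent.Results.MP_7f38c2_co.CountablyManyEnds
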